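import Pool.Agent.R260.AV.Stm
import Pool.Agent.R766.Proc

/-!
# AV-B0, AV-B2: the marked process exists; algebra of the thinning
-/

set_option autoImplicit false

open MeasureTheory

namespace Pool.Agent.R260.AV

namespace B0B2

section
variable {S : Type} [Fintype S] [DecidableEq S] {k : ℕ} {p : ℝ} {P : S → S → ℝ} {o : S}
  {L : Fin k → S}

theorem fwd_nonneg (hP : ∀ s s', 0 ≤ P s s') (a : S) : ∀ (h : List Bool) (s : S),
    0 ≤ fwd P o a h s := by
  intro h
  induction h with
  | nil =>
    intro s
    simp only [fwd]
    split_ifs <;> norm_num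
  | cons b h ih =>
    intro s
    simp only [fwd]
    split_ifs
    · exact Finset.sum_nonneg fun s' _ => mul_nonneg (ih s') (hP s' s)
    · exact le_rfl

theorem mass_nonneg (hP : ∀ s s', 0 ≤ P s s') (a : S) (h : List Bool) : 0 ≤ mass P o a h :=
  Finset.sum_nonneg fun s _ => fwd_nonneg hP a h s

theorem mass_split (hP : ∀ s, ∑ s', P s s' = 1) (a : S) (h : List Bool) :
    mass P o a (true :: h) + mass P o a (false :: h) = mass P o a h := by
  unfold mass
  rw [← Finset.sum_add_distrib]
  have e : ∀ s' : S, fwd P o a (true :: h) s' + fwd P o a (false :: h) s' =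
      ∑ s, fwd P o a h s * P s s' := by
    intro s'
    simp only [fwd]
    by_cases hs : s' = a <;> simp [hs]
  simp only [e]
  rw [Finset.sum_comm]
  refine Finset.sum_congr rfl fun s _ => ?_
  rw [← Finset.mul_sum, hP, mul_one]

theorem mass_nil (a : S) : mass P o a [] = 1 := by
  simp [mass, fwd]

theorem th_nonneg (hp : 0 ≤ p) (hP : ∀ s s', 0 ≤ P s s') (a : S) (h : List Bool) :
    0 ≤ th P o a p h :=
  div_nonneg (mul_nonneg hp (mass_nonneg hP a h)) (mass_nonneg hP a _)

theorem th_le_one (hP : ∀ s s', 0 ≤ P s s') (a : S) (h : List Bool)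
    (hz : p * mass P o a h ≤ mass P o a (true :: h)) : th P o a p h ≤ 1 :=
  div_le_one_of_le₀ hz (mass_nonneg hP a _)

theorem mass_th (hp : 0 ≤ p) (hP : ∀ s s', 0 ≤ P s s') (a : S) (h : List Bool)
    (hz : p * mass P o a h ≤ mass P o a (true :: h)) :
    mass P o a (true :: h) * th P o a p h = p * mass P o a h := by
  unfold th
  by_cases h0 : mass P o a (true :: h) = 0
  · have h1 : p * mass P o a h = 0 :=
      le_antisymm (by rw [h0] at hz; exact hz) (mul_nonneg hp (mass_nonneg hP a h))
    rw [h1, h0, zero_mul]
  · field_simp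

theorem hist_congr (a : S) (x x' : ℕ → S × Bool) : ∀ n : ℕ, (∀ i ≤ n, x i = x' i) →
    hist a n x = hist a n x' := by
  intro n
  induction n with
  | zero => intro _; rfl
  | succ n ih =>
    intro h
    simp only [hist]
    rw [h (n + 1) le_rfl, ih fun i hi => h i (by omega)]

theorem pr_congr (p : ℝ) (x x' : ℕ → S × Bool) (n : ℕ) (h : ∀ i ≤ n, x i = x' i) (s : S) :
    pr P o L p n x s = pr P o L p n x' s := by
  unfold pr
  split_ifs with hs
  · rw [hist_congr _ x x' n h]
  · rfl

theorem pr_mem (hp : 0 ≤ p) (hC : Chain k p P o L) (n : ℕ) (x : ℕ → S × Bool) (s : S) :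
    0 ≤ pr P o L p n x s ∧ pr P o L p n x s ≤ 1 := by
  unfold pr
  split_ifs with hs
  · exact ⟨th_nonneg hp hC.nonneg _ _, th_le_one hC.nonneg _ _ (hC.hazard _ _)⟩
  · exact ⟨le_rfl, zero_le_one⟩

end

end B0B2

open B0B2

theorem b0 : S_B0 := by
  intro S _ _ k p P o L hp hC
  obtain ⟨m, μ, h1, h2, h3, h4⟩ := Pool.Agent.R766.Proc.exists_process
    (S := S × Bool) (fun n x z => ker P o L p n x z)
    (by
      intro n x
      rw [tsum_fintype]
      have hnn : ∀ z : S × Bool, 0 ≤ P (x n).1 z.1 *
          (if z.2 = true then pr P o L p n x z.1 else 1 - pr P o L p n x z.1) := by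
        intro z
        obtain ⟨a1, a2⟩ := pr_mem hp hC n x z.1
        refine mul_nonneg (hC.nonneg _ _) ?_
        split_ifs <;> linarith
      simp only [ker]
      rw [← ENNReal.ofReal_sum_of_nonneg fun z _ => hnn z, Fintype.sum_prod_type]
      have e : ∀ s : S, ∑ b : Bool, P (x n).1 s *
          (if b = true then pr P o L p n x s else 1 - pr P o L p n x s) = P (x n).1 s := by
        intro s
        rw [Fintype.sum_bool]
        simp only [if_true, Bool.false_eq_true, if_false]
        ring
      simp only [e]
      rw [hC.sum_one, ENNReal.ofReal_one])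
    (by
      intro n x x' h
      funext z
      simp only [ker]
      rw [h n le_rfl, pr_congr p x x' n h])
    (o, false)
  exact ⟨m, μ, ⟨h1, h2, h3, h4⟩⟩

theorem b2 : S_B2 := by
  intro S _ _ k p P o L hp hC j ys
  induction ys with
  | nil =>
    simp [lists, mass_nil, gw]
  | cons c ys ih =>
    have hd : Disjoint ((lists ys.length).image (List.cons true))
        ((lists ys.length).image (List.cons false)) := by
      rw [Finset.disjoint_left]
      intro l h1 h2
      rw [Finset.mem_image] at h1 h2
      obtain ⟨a, _, rfl⟩ := h1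
      obtain ⟨b, _, hb⟩ := h2
      simp at hb
    rw [List.length_cons, List.map_cons, List.prod_cons, ← ih, Finset.mul_sum]
    simp only [lists]
    rw [Finset.sum_union hd, Finset.sum_image fun a _ b _ h => List.cons_injective h,
      Finset.sum_image fun a _ b _ h => List.cons_injective h, ← Finset.sum_add_distrib]
    refine Finset.sum_congr rfl fun h _ => ?_
    have hm := mass_th (o := o) (a := L j) hp hC.nonneg h (hC.hazard j h)
    have hs := mass_split (o := o) hC.sum_one (L j) h
    simp only [gw, if_true, Bool.false_eq_true, if_false]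
    cases c with
    | true =>
      simp only [if_true]
      calc mass P o (L j) (true :: h) * (gw P o (L j) p h ys * th P o (L j) p h) +
            mass P o (L j) (false :: h) * (gw P o (L j) p h ys * 0)
          = (mass P o (L j) (true :: h) * th P o (L j) p h) * gw P o (L j) p h ys := by ring
        _ = p * (mass P o (L j) h * gw P o (L j) p h ys) := by rw [hm]; ring
    | false =>
      simp only [Bool.false_eq_true, if_false]
      calc mass P o (L j) (true :: h) * (gw P o (L j) p h ys * (1 - th P o (L j) p h)) +
            mass P o (L j) (false :: h) * (gw P o (L j) p h ys * 1)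
          = ((mass P o (L j) (true :: h) + mass P o (L j) (false :: h)) -
              mass P o (L j) (true :: h) * th P o (L j) p h) * gw P o (L j) p h ys := by ring
        _ = (1 - p) * (mass P o (L j) h * gw P o (L j) p h ys) := by rw [hm, hs]; ring

end Pool.Agent.R260.AV
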