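import Mathlib

/-!
# 1-avoidance couplings of Bernoulli sequences (MP_f1618c_pr): definitions
-/

set_option autoImplicit false

open MeasureTheory

namespace Pool.Agent.R260.AV

/-- There is a 1-avoidance coupling of `k` Bernoulli(`p`) walkers (walkers `0, …, k - 1`, times
`0, 1, …`; walker `j` makes its `t`-th move at position `t * k + j` of the interleaved sequence). -/
def Coupling (k : ℕ) (p : ℝ) : Prop :=
  ∃ (Ω : Type) (_ : MeasurableSpace Ω) (μ : Measure Ω) (X : Fin k → ℕ → Ω → Bool),
    IsProbabilityMeasure μ ∧ (∀ j t, Measurable (X j t)) ∧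
    (∀ (j : Fin k) (n : ℕ) (y : ℕ → Bool),
      μ.real {ω | ∀ i < n, X j i ω = y i} =
        ∏ i ∈ Finset.range n, (if y i = true then p else 1 - p)) ∧
    (∀ᵐ ω ∂μ, ∀ (j j' : Fin k) (t t' : ℕ), t * k + j < t' * k + j' →
      t' * k + j' < t * k + j + k → ¬ (X j t ω = true ∧ X j' t' ω = true))

/-- `p_k` -/
noncomputable def pk (k : ℕ) : ℝ := sSup {p : ℝ | 0 ≤ p ∧ p ≤ 1 ∧ Coupling k p}

section fwd
variable {St : Type} [Fintype St] [DecidableEq St]

/-- forward masses of the chain with transition matrix `P` started (unobserved) at `o`; the list is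
the own history of the state `a`, NEWEST ENTRY FIRST. -/
noncomputable def fwd (P : St → St → ℝ) (o a : St) : List Bool → St → ℝ
  | [], s => if s = o then 1 else 0
  | b :: h, s' => if decide (s' = a) = b then ∑ s, fwd P o a h s * P s s' else 0

/-- total mass of a history -/
noncomputable def mass (P : St → St → ℝ) (o a : St) (h : List Bool) : ℝ := ∑ s, fwd P o a h s

/-- the chain `P` with letters `L` is good for `k` walkers and parameter `p` -/
structure Chain (k : ℕ) (p : ℝ) (P : St → St → ℝ) (o : St) (L : Fin k → St) : Prop where
  nonneg : ∀ s s', 0 ≤ P s s'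
  sum_one : ∀ s, ∑ s', P s s' = 1
  inj : Function.Injective L
  mono : ∀ j j' : Fin k, j' < j → P (L j) (L j') = 0
  hazard : ∀ (j : Fin k) (h : List Bool),
    p * mass P o (L j) h ≤ mass P o (L j) (true :: h)

end fwd

def HasChain (k : ℕ) (p : ℝ) : Prop :=
  ∃ (St : Type) (_ : Fintype St) (_ : DecidableEq St) (P : St → St → ℝ) (o : St) (L : Fin k → St),
    Chain k p P o L

/-! ### The thinned process -/

section thin
variable {St : Type} [Fintype St] [DecidableEq St]

/-- thinning probability after the own history `h` -/
noncomputable def th (P : St → St → ℝ) (o a : St) (p : ℝ) (h : List Bool) : ℝ :=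
  p * mass P o a h / mass P o a (true :: h)

/-- own history (newest first) of the letter `a` at times `1..n` of a path -/
def hist (a : St) : ℕ → (ℕ → St × Bool) → List Bool
  | 0, _ => []
  | n + 1, x => decide ((x (n + 1)).1 = a) :: hist a n x

/-- marks (newest first): `a` visited and mark `true`, at times `1..n` of a path -/
def marks (a : St) : ℕ → (ℕ → St × Bool) → List Bool
  | 0, _ => []
  | n + 1, x => (decide ((x (n + 1)).1 = a) && (x (n + 1)).2) :: marks a n x

open Classical in
/-- probability that the mark is `true`, given the path up to time `n` and the next state `s` -/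
noncomputable def pr {k : ℕ} (P : St → St → ℝ) (o : St) (L : Fin k → St) (p : ℝ) (n : ℕ)
    (x : ℕ → St × Bool) (s : St) : ℝ :=
  if h : ∃ j, L j = s then th P o (L h.choose) p (hist (L h.choose) n x) else 0

/-- transition probabilities of the marked process -/
noncomputable def ker {k : ℕ} (P : St → St → ℝ) (o : St) (L : Fin k → St) (p : ℝ) (n : ℕ)
    (x : ℕ → St × Bool) (z : St × Bool) : ENNReal :=
  ENNReal.ofReal (P (x n).1 z.1 * (if z.2 = true then pr P o L p n x z.1 else 1 - pr P o L p n x z.1))

/-- weight of a list of marks given the list of own visits -/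
noncomputable def gw (P : St → St → ℝ) (o a : St) (p : ℝ) : List Bool → List Bool → ℝ
  | [], [] => 1
  | b :: h, c :: ys => gw P o a p h ys *
      (if b = true then (if c = true then th P o a p h else 1 - th P o a p h)
        else (if c = true then 0 else 1))
  | _, _ => 0

/-- all lists of length `n` -/
def lists : ℕ → Finset (List Bool)
  | 0 => {[]}
  | n + 1 => (lists n).image (List.cons true) ∪ (lists n).image (List.cons false)

/-- a process with the transition probabilities `ker` started at `(o, false)` -/
structure IsProc {k : ℕ} (P : St → St → ℝ) (o : St) (L : Fin k → St) (p : ℝ)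
    {mΩ : MeasurableSpace (ℕ → St × Bool)} (μ : Measure (ℕ → St × Bool)) : Prop where
  prob : IsProbabilityMeasure μ
  meas : ∀ n y, MeasurableSet {ω : ℕ → St × Bool | ω n = y}
  start : μ {ω | ω 0 = (o, false)} = 1
  step : ∀ (t : ℕ) (x : ℕ → St × Bool) (y : St × Bool),
    μ {ω | (∀ i ≤ t, ω i = x i) ∧ ω (t + 1) = y} =
      μ {ω | ∀ i ≤ t, ω i = x i} * ker P o L p t x y

end thin

/-! ### The chain with resets and echoes -/

/-- states: `none` = reset, `some none` = dead, `some (some (i, r))` = letter `i` if `r = 0`, and
`r` steps before letter `i` otherwise -/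
abbrev St (K M : ℕ) := Option (Option (Fin K × Fin M))

noncomputable def trans (K M : ℕ) (ε q : ℝ) : St K M → St K M → ℝ
  | none, none => ε
  | none, some none => 0
  | none, some (some (_, r)) => if r.val = 0 then (1 - ε) / K else 0
  | some none, none => ε
  | some none, some none => 1 - ε
  | some none, some (some _) => 0
  | some (some _), none => ε
  | some (some (i, r)), some none =>
      if r.val = 0 ∧ i.val + 1 = K then (1 - ε) * (1 - M * q) else 0
  | some (some (i, r)), some (some (i', r')) =>
      if r.val = 0 then
        (if i' = i then (1 - ε) * q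
          else if i'.val = i.val + 1 ∧ r'.val = 0 then (1 - ε) * (1 - M * q) else 0)
      else (if i' = i ∧ r'.val + 1 = r.val then 1 - ε else 0)

/-- the letter `a` -/
def letter {K M : ℕ} (hM : 0 < M) (a : Fin K) : St K M := some (some (a, ⟨0, hM⟩))

end Pool.Agent.R260.AV
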