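import Mathlib
import Pool.Agent.R260.AV.Defs

set_option autoImplicit false

open MeasureTheory

namespace Pool.Agent.R260.AV

/-- B0: a marked process exists -/
def S_B0 : Prop := ∀ (S : Type) [Fintype S] [DecidableEq S] (k : ℕ) (p : ℝ) (P : S → S → ℝ) (o : S)
  (L : Fin k → S), 0 ≤ p → Chain k p P o L →
  ∃ (_ : MeasurableSpace (ℕ → S × Bool)) (μ : Measure (ℕ → S × Bool)), IsProc P o L p μ

/-- B1: joint law of own history, marks and state -/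
def S_B1 : Prop := ∀ (S : Type) [Fintype S] [DecidableEq S] (k : ℕ) (p : ℝ) (P : S → S → ℝ) (o : S)
  (L : Fin k → S), 0 ≤ p → Chain k p P o L →
  ∀ (mΩ : MeasurableSpace (ℕ → S × Bool)) (μ : Measure (ℕ → S × Bool)), IsProc P o L p μ →
  ∀ (j : Fin k) (n : ℕ) (h ys : List Bool) (s : S), h.length = n → ys.length = n →
    μ.real {ω | hist (L j) n ω = h ∧ marks (L j) n ω = ys ∧ (ω n).1 = s} =
      fwd P o (L j) h s * gw P o (L j) p h ys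

/-- B2: the marks are Bernoulli(p): pure algebra -/
def S_B2 : Prop := ∀ (S : Type) [Fintype S] [DecidableEq S] (k : ℕ) (p : ℝ) (P : S → S → ℝ) (o : S)
  (L : Fin k → S), 0 ≤ p → Chain k p P o L → ∀ (j : Fin k) (ys : List Bool),
    ∑ h ∈ lists ys.length, mass P o (L j) h * gw P o (L j) p h ys =
      (ys.map (fun b : Bool => if b = true then p else 1 - p)).prod

/-- B3: conclusion -/
def S_B3 : Prop := S_B0 → S_B1 → S_B2 → ∀ (k : ℕ) (p : ℝ), 0 ≤ p → p ≤ 1 → HasChain k p → Coupling k p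

/-- C: two walkers, p = 1/3 -/
def S_C : Prop := HasChain 2 (1 / 3)

/-- D1: the reset chain is a stochastic matrix -/
def S_D1 : Prop := ∀ (K M : ℕ) (ε q : ℝ), 0 < K → 0 < M → 0 ≤ ε → ε ≤ 1 → 0 ≤ q → M * q ≤ 1 →
  (∀ s s' : St K M, 0 ≤ trans K M ε q s s') ∧ ∀ s : St K M, ∑ s', trans K M ε q s s' = 1

/-- D2: hazard of the reset chain -/
def S_D2 : Prop := ∀ (K M : ℕ) (ε q p : ℝ) (hM : 0 < M) (a : Fin K), M ≤ a.val → 0 < ε → ε < 1 →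
  0 ≤ q → M * q ≤ 1 → 0 ≤ p → p ≤ (1 - ε) ^ M * q →
  p ≤ ε * (1 - ε) / K * ∑ s ∈ Finset.range M, ((1 - ε) * (1 - M * q)) ^ s →
  ∀ h : List Bool, p * mass (trans K M ε q) none (letter hM a) h ≤
    mass (trans K M ε q) none (letter hM a) (true :: h)

/-- E: choice of the parameters -/
def S_E : Prop := ∀ c : ℝ, 0 < c → c < 1 → ∃ (M : ℕ) (ε : ℝ) (k₀ : ℕ), 0 < M ∧ 0 < ε ∧ ε < 1 ∧
  ∀ k : ℕ, k₀ ≤ k → ∃ q : ℝ, 0 ≤ q ∧ M * q ≤ 1 ∧ c / k ≤ (1 - ε) ^ M * q ∧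
    c / k ≤ ε * (1 - ε) / ((k + M : ℕ) : ℝ) *
      ∑ s ∈ Finset.range M, ((1 - ε) * (1 - M * q)) ^ s

/-- F1: upper bound for all k -/
def S_F1 : Prop := ∀ (k : ℕ) (p : ℝ), 2 ≤ k → 0 ≤ p → p ≤ 1 → Coupling k p →
  ((k : ℝ) - 1) * (p + p ^ 2 - p ^ 3) ≤ (1 - p) ^ 2

/-- F2: upper bound for two walkers -/
def S_F2 : Prop := ∀ p : ℝ, 0 ≤ p → p ≤ 1 → Coupling 2 p → p ≤ 1 / 3

end Pool.Agent.R260.AV
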