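import Mathlib
import Pool.Agent.R260.AV.Stm

/-!
# Project AV: from a good chain to a coupling (piece AV-B3, by helper25)
-/

set_option autoImplicit false

open MeasureTheory

namespace Pool.Agent.R260.AV

section aux
variable {S : Type} [Fintype S] [DecidableEq S]

theorem b3_lists_length : ∀ (n : ℕ) (h : List Bool), h ∈ lists n → h.length = n
  | 0, h, hh => by
      have : h = [] := by simpa [lists] using hh
      rw [this]; rfl
  | n + 1, h, hh => by
      unfold lists at hh
      rw [Finset.mem_union, Finset.mem_image, Finset.mem_image] at hh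
      rcases hh with ⟨g, hg, rfl⟩ | ⟨g, hg, rfl⟩
      · rw [List.length_cons, b3_lists_length n g hg]
      · rw [List.length_cons, b3_lists_length n g hg]

theorem b3_hist_mem (a : S) : ∀ (n : ℕ) (ω : ℕ → S × Bool), hist a n ω ∈ lists n
  | 0, ω => by simp [hist, lists]
  | n + 1, ω => by
      unfold hist lists
      rw [Finset.mem_union, Finset.mem_image, Finset.mem_image]
      by_cases h : (ω (n + 1)).1 = a
      · left
        exact ⟨hist a n ω, b3_hist_mem a n ω, by rw [decide_eq_true h]⟩
      · right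
        exact ⟨hist a n ω, b3_hist_mem a n ω, by rw [decide_eq_false h]⟩

/-- the list `[y (n - 1), …, y 0]` -/
def b3ys (y : ℕ → Bool) : ℕ → List Bool
  | 0 => []
  | n + 1 => y n :: b3ys y n

theorem b3ys_length (y : ℕ → Bool) : ∀ n, (b3ys y n).length = n
  | 0 => rfl
  | n + 1 => by rw [b3ys, List.length_cons, b3ys_length y n]

theorem b3ys_prod (y : ℕ → Bool) (p : ℝ) : ∀ n,
    ((b3ys y n).map (fun b : Bool => if b = true then p else 1 - p)).prod =
      ∏ i ∈ Finset.range n, (if y i = true then p else 1 - p)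
  | 0 => by simp [b3ys]
  | n + 1 => by
      rw [b3ys, List.map_cons, List.prod_cons, b3ys_prod y p n, Finset.prod_range_succ, mul_comm]

theorem b3_marks_iff (a : S) (y : ℕ → Bool) (ω : ℕ → S × Bool) : ∀ n,
    (∀ i < n, (decide ((ω (i + 1)).1 = a) && (ω (i + 1)).2) = y i) ↔ marks a n ω = b3ys y n
  | 0 => by simp [marks, b3ys]
  | n + 1 => by
      rw [marks, b3ys, List.cons.injEq, ← b3_marks_iff a y ω n]
      constructor
      · intro h
        exact ⟨h n (Nat.lt_succ_self n), fun i hi => h i (Nat.lt_succ_of_lt hi)⟩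
      · rintro ⟨h1, h2⟩ i hi
        rcases Nat.lt_succ_iff_lt_or_eq.mp hi with h | h
        · exact h2 i h
        · rw [h]; exact h1

variable {mΩ : MeasurableSpace (ℕ → S × Bool)}

theorem b3_meas (hm : ∀ n y, MeasurableSet {ω : ℕ → S × Bool | ω n = y}) (n : ℕ)
    (Q : S × Bool → Prop) : MeasurableSet {ω : ℕ → S × Bool | Q (ω n)} := by
  have h : {ω : ℕ → S × Bool | Q (ω n)} = ⋃ z ∈ {z | Q z}, {ω : ℕ → S × Bool | ω n = z} := by
    ext ω
    simp
  rw [h]
  exact MeasurableSet.biUnion (Set.to_countable _) (fun z _ => hm n z)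

theorem b3_meas_hist (hm : ∀ n y, MeasurableSet {ω : ℕ → S × Bool | ω n = y}) (a : S) :
    ∀ (n : ℕ) (h : List Bool), MeasurableSet {ω : ℕ → S × Bool | hist a n ω = h}
  | 0, h => by
      simp only [hist]
      exact MeasurableSet.const _
  | n + 1, [] => by
      have : {ω : ℕ → S × Bool | hist a (n + 1) ω = []} = ∅ := by
        ext ω
        simp [hist]
      rw [this]
      exact MeasurableSet.empty
  | n + 1, b :: h => by
      have : {ω : ℕ → S × Bool | hist a (n + 1) ω = b :: h} =
          {ω : ℕ → S × Bool | decide ((ω (n + 1)).1 = a) = b} ∩ {ω | hist a n ω = h} := by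
        ext ω
        simp only [hist, Set.mem_setOf_eq, List.cons.injEq, Set.mem_inter_iff]
      rw [this]
      exact (b3_meas hm (n + 1) (fun z => decide (z.1 = a) = b)).inter (b3_meas_hist hm a n h)

theorem b3_meas_marks (hm : ∀ n y, MeasurableSet {ω : ℕ → S × Bool | ω n = y}) (a : S) :
    ∀ (n : ℕ) (h : List Bool), MeasurableSet {ω : ℕ → S × Bool | marks a n ω = h}
  | 0, h => by
      simp only [marks]
      exact MeasurableSet.const _
  | n + 1, [] => by
      have : {ω : ℕ → S × Bool | marks a (n + 1) ω = []} = ∅ := by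
        ext ω
        simp [marks]
      rw [this]
      exact MeasurableSet.empty
  | n + 1, b :: h => by
      have : {ω : ℕ → S × Bool | marks a (n + 1) ω = b :: h} =
          {ω : ℕ → S × Bool | (decide ((ω (n + 1)).1 = a) && (ω (n + 1)).2) = b} ∩
            {ω | marks a n ω = h} := by
        ext ω
        simp only [marks, Set.mem_setOf_eq, List.cons.injEq, Set.mem_inter_iff]
      rw [this]
      exact (b3_meas hm (n + 1) (fun z => (decide (z.1 = a) && z.2) = b)).inter
        (b3_meas_marks hm a n h)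

theorem b3_null {k : ℕ} {P : S → S → ℝ} {o : S} {L : Fin k → S} {p : ℝ}
    {μ : Measure (ℕ → S × Bool)} (h : IsProc P o L p μ) (t : ℕ) (y1 y2 : S × Bool)
    (h0 : P y1.1 y2.1 = 0) : μ {ω | ω (t + 1) = y1 ∧ ω (t + 2) = y2} = 0 := by
  have hsub : {ω : ℕ → S × Bool | ω (t + 1) = y1 ∧ ω (t + 2) = y2} ⊆
      ⋃ x : {x : Fin (t + 2) → S × Bool // x (Fin.last (t + 1)) = y1},
        {ω : ℕ → S × Bool | (∀ i ≤ t + 1, ω i = (fun m : ℕ => if hm : m < t + 2 then x.1 ⟨m, hm⟩
          else y1) i) ∧ ω (t + 1 + 1) = y2} := by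
    rintro ω ⟨h1, h2⟩
    rw [Set.mem_iUnion]
    refine ⟨⟨fun i => ω i, by simpa using h1⟩, ?_, h2⟩
    intro i hi
    have : i < t + 2 := by omega
    simp only [this, dif_pos]
  refine measure_mono_null hsub ?_
  rw [measure_iUnion_null_iff]
  intro x
  rw [h.step]
  have hx : (fun m : ℕ => if hm : m < t + 2 then x.1 ⟨m, hm⟩ else y1) (t + 1) = y1 := by
    have h3 : t + 1 < t + 2 := by omega
    simp only [h3, dif_pos]
    exact x.2
  unfold ker
  rw [hx, h0, zero_mul, ENNReal.ofReal_zero, mul_zero]

end aux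

theorem b3 : S_B3 := by
  intro hB0 hB1 hB2 k p hp0 hp1 hC
  obtain ⟨S, _, _, P, o, L, hCh⟩ := hC
  obtain ⟨mΩ, μ, hμ⟩ := hB0 S k p P o L hp0 hCh
  have hprob := hμ.prob
  refine ⟨ℕ → S × Bool, mΩ, μ, fun j t ω => decide ((ω (t + 1)).1 = L j) && (ω (t + 1)).2,
    hprob, ?_, ?_, ?_⟩
  · intro j t
    refine measurable_to_bool ?_
    exact b3_meas hμ.meas (t + 1) (fun z => (decide (z.1 = L j) && z.2) = true)
  · intro j n y
    have e1 : {ω : ℕ → S × Bool | ∀ i < n,
        (decide ((ω (i + 1)).1 = L j) && (ω (i + 1)).2) = y i} =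
        ⋃ q ∈ (lists n) ×ˢ (Finset.univ : Finset S),
          {ω | hist (L j) n ω = q.1 ∧ marks (L j) n ω = b3ys y n ∧ (ω n).1 = q.2} := by
      ext ω
      simp only [Set.mem_setOf_eq, Set.mem_iUnion, Finset.mem_product, Finset.mem_univ, and_true,
        exists_prop]
      rw [b3_marks_iff]
      constructor
      · intro h
        exact ⟨(hist (L j) n ω, (ω n).1), b3_hist_mem _ _ _, rfl, h, rfl⟩
      · rintro ⟨q, _, _, h, _⟩
        exact h
    rw [e1, measureReal_biUnion_finset]
    · rw [Finset.sum_product]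
      have e2 : ∀ h ∈ lists n, ∑ s : S, μ.real {ω | hist (L j) n ω = h ∧
          marks (L j) n ω = b3ys y n ∧ (ω n).1 = s} =
          mass P o (L j) h * gw P o (L j) p h (b3ys y n) := by
        intro h hh
        rw [mass, Finset.sum_mul]
        refine Finset.sum_congr rfl fun s _ => ?_
        exact hB1 S k p P o L hp0 hCh mΩ μ hμ j n h (b3ys y n) s (b3_lists_length n h hh)
          (b3ys_length y n)
      rw [Finset.sum_congr rfl e2]
      have e3 := hB2 S k p P o L hp0 hCh j (b3ys y n)
      rw [b3ys_length] at e3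
      rw [e3, b3ys_prod]
    · intro q _ q' _ hne
      rw [Function.onFun, Set.disjoint_left]
      rintro ω ⟨h1, _, h2⟩ ⟨h3, _, h4⟩
      exact hne (Prod.ext (h1.symm.trans h3) (h2.symm.trans h4))
    · intro q _
      have : {ω : ℕ → S × Bool | hist (L j) n ω = q.1 ∧ marks (L j) n ω = b3ys y n ∧
          (ω n).1 = q.2} = {ω | hist (L j) n ω = q.1} ∩ ({ω | marks (L j) n ω = b3ys y n} ∩
          {ω | (ω n).1 = q.2}) := by
        ext ω
        rfl
      rw [this]
      exact (b3_meas_hist hμ.meas _ _ _).inter ((b3_meas_marks hμ.meas _ _ _).inter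
        (b3_meas hμ.meas n (fun z => z.1 = q.2)))
  · rw [ae_all_iff]; intro j
    rw [ae_all_iff]; intro j'
    rw [ae_all_iff]; intro t
    rw [ae_all_iff]; intro t'
    by_cases h1 : t * k + (j : ℕ) < t' * k + (j' : ℕ)
    swap
    · exact Filter.Eventually.of_forall (fun ω h => absurd h h1)
    by_cases h2 : t' * k + (j' : ℕ) < t * k + (j : ℕ) + k
    swap
    · exact Filter.Eventually.of_forall (fun ω _ h => absurd h h2)
    have hj := j.isLt
    have hj' := j'.isLt
    have h3 : t ≤ t' := by
      by_contra hcon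
      push Not at hcon
      have : (t' + 1) * k ≤ t * k := Nat.mul_le_mul_right k hcon
      rw [add_mul, one_mul] at this
      omega
    have h4 : t' ≤ t + 1 := by
      by_contra hcon
      push Not at hcon
      have : (t + 2) * k ≤ t' * k := Nat.mul_le_mul_right k hcon
      rw [add_mul, two_mul] at this
      omega
    rcases Nat.lt_or_ge t t' with h5 | h5
    · have h6 : t' = t + 1 := by omega
      subst h6
      have h7 : j' < j := by
        rw [Fin.lt_def]
        rw [add_mul, one_mul] at h2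
        omega
      have h8 := b3_null hμ t (L j, true) (L j', true) (hCh.mono j j' h7)
      have h9 : ∀ᵐ ω ∂μ, ¬ (ω (t + 1) = (L j, true) ∧ ω (t + 2) = (L j', true)) := by
        rw [ae_iff]
        simpa using h8
      filter_upwards [h9] with ω hω _ _ hcon
      apply hω
      obtain ⟨c1, c2⟩ := hcon
      rw [Bool.and_eq_true, decide_eq_true_eq] at c1 c2
      exact ⟨Prod.ext c1.1 c1.2, Prod.ext c2.1 c2.2⟩
    · have h6 : t' = t := by omega
      subst h6
      refine Filter.Eventually.of_forall (fun ω _ _ hcon => ?_)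
      obtain ⟨c1, c2⟩ := hcon
      rw [Bool.and_eq_true, decide_eq_true_eq] at c1 c2
      have := hCh.inj (c1.1.symm.trans c2.1)
      subst this
      omega

end Pool.Agent.R260.AV
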