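import Pool.Agent.R260.AV.Stm

set_option autoImplicit false

namespace Pool.Agent.R260.AV

/-- the three-state chain -/
noncomputable def P3 : Fin 3 → Fin 3 → ℝ :=
  ![![0, 2 / 3, 1 / 3], ![1 / 3, 1 / 3, 1 / 3], ![2 / 3, 0, 1 / 3]]

theorem p00 : P3 0 0 = 0 := by simp [P3]
theorem p01 : P3 0 1 = 2 / 3 := by simp [P3]
theorem p02 : P3 0 2 = 1 / 3 := by simp [P3]
theorem p10 : P3 1 0 = 1 / 3 := by simp [P3]
theorem p11 : P3 1 1 = 1 / 3 := by simp [P3]
theorem p12 : P3 1 2 = 1 / 3 := by simp [P3]
theorem p20 : P3 2 0 = 2 / 3 := by simp [P3]
theorem p21 : P3 2 1 = 0 := by simp [P3]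
theorem p22 : P3 2 2 = 1 / 3 := by simp [P3]

theorem fwd_nil3 (a : Fin 3) (s : Fin 3) : fwd P3 1 a [] s = if s = 1 then 1 else 0 := rfl

theorem fwd_cons3 (a : Fin 3) (b : Bool) (h : List Bool) (s' : Fin 3) :
    fwd P3 1 a (b :: h) s' =
      if decide (s' = a) = b then ∑ s, fwd P3 1 a h s * P3 s s' else 0 := rfl

theorem inv3 (h : List Bool) : fwd P3 1 1 h 0 = fwd P3 1 1 h 2 := by
  induction h with
  | nil =>
    rw [fwd_nil3, fwd_nil3, if_neg (by decide), if_neg (by decide)]
  | cons b h ih =>
    rw [fwd_cons3, fwd_cons3]
    cases b
    · rw [if_pos (by decide), if_pos (by decide), Fin.sum_univ_three, Fin.sum_univ_three]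
      rw [p00, p10, p20, p02, p12, p22]
      rw [ih]
      ring
    · rw [if_neg (by decide), if_neg (by decide)]

theorem c : S_C := by
  refine ⟨Fin 3, inferInstance, inferInstance, P3, 1, ![1, 2], ?_, ?_, ?_, ?_, ?_⟩
  · intro s s'
    fin_cases s <;> fin_cases s' <;> simp [P3] <;> norm_num
  · intro s
    fin_cases s <;> simp [P3, Fin.sum_univ_three] <;> norm_num
  · intro i j hij
    fin_cases i <;> fin_cases j <;> simp_all
  · intro j j' hj
    fin_cases j <;> fin_cases j' <;> simp_all [P3]
  · intro j h
    fin_cases j
    · show 1 / 3 * mass P3 1 1 h ≤ mass P3 1 1 (true :: h)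
      have h1 := inv3 h
      unfold mass
      simp only [fwd_cons3]
      rw [Fin.sum_univ_three, Fin.sum_univ_three, if_neg (by decide), if_pos (by decide),
        if_neg (by decide), Fin.sum_univ_three]
      rw [p01, p11, p21]
      rw [h1]
      apply le_of_eq
      ring
    · show 1 / 3 * mass P3 1 2 h ≤ mass P3 1 2 (true :: h)
      unfold mass
      simp only [fwd_cons3]
      rw [Fin.sum_univ_three, Fin.sum_univ_three, if_neg (by decide), if_neg (by decide),
        if_pos (by decide), Fin.sum_univ_three]
      rw [p02, p12, p22]
      apply le_of_eq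
      ring

theorem sum_zero_ind {M : ℕ} (hM : 0 < M) (c : ℝ) :
    ∑ r : Fin M, (if r.val = 0 then c else 0) = c := by
  rw [Finset.sum_eq_single (⟨0, hM⟩ : Fin M)]
  · simp
  · intro b _ hb
    rw [if_neg]
    intro h
    exact hb (Fin.ext h)
  · intro h
    exact absurd (Finset.mem_univ _) h

theorem d1 : S_D1 := by
  intro K M ε q hK hM he0 he1 hq hMq
  have h1 : 0 ≤ 1 - ε := by linarith
  have h2 : 0 ≤ 1 - M * q := by linarith
  have h3 : 0 ≤ (1 - ε) * q := mul_nonneg h1 hq
  have h4 : 0 ≤ (1 - ε) * (1 - M * q) := mul_nonneg h1 h2
  have h5 : 0 ≤ (1 - ε) / K := div_nonneg h1 (by positivity)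
  have hK0 : (K : ℝ) ≠ 0 := by positivity
  refine ⟨?_, ?_⟩
  · rintro (_ | _ | ⟨i, r⟩) (_ | _ | ⟨i', r'⟩) <;> simp only [trans] <;> (try split_ifs) <;>
      first | exact le_rfl | assumption
  · rintro (_ | _ | ⟨i, r⟩) <;>
      rw [Fintype.sum_option, Fintype.sum_option, Fintype.sum_prod_type] <;> simp only [trans]
    · simp only [sum_zero_ind hM, Finset.sum_const, Finset.card_univ, Fintype.card_fin,
        nsmul_eq_mul]
      field_simp
      ring
    · simp
    · by_cases hr : r.val = 0
      · simp only [hr, true_and, if_true]
        have e1 : ∀ i' : Fin K, ∑ r' : Fin M, (if i' = i then (1 - ε) * q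
            else if i'.val = i.val + 1 ∧ r'.val = 0 then (1 - ε) * (1 - M * q) else 0) =
            (if i' = i then M * ((1 - ε) * q) else 0) +
              (if i'.val = i.val + 1 then (1 - ε) * (1 - M * q) else 0) := by
          intro i'
          by_cases h : i' = i
          · subst h
            simp
          · by_cases h' : i'.val = i.val + 1
            · simp only [h, h', if_false, true_and, if_true]
              rw [sum_zero_ind hM, zero_add]
            · simp [h, h']
        rw [Finset.sum_congr rfl fun i' _ => e1 i', Finset.sum_add_distrib,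
          Finset.sum_ite_eq' Finset.univ i, if_pos (Finset.mem_univ _)]
        by_cases hi : i.val + 1 = K
        · rw [if_pos hi]
          have e2 : ∑ i' : Fin K, (if i'.val = i.val + 1 then (1 - ε) * (1 - M * q) else 0) = 0 := by
            refine Finset.sum_eq_zero fun i' _ => ?_
            rw [if_neg]
            have := i'.2
            omega
          rw [e2]
          ring
        · rw [if_neg hi]
          have hlt : i.val + 1 < K := by
            have := i.2
            omega
          have e2 : ∑ i' : Fin K, (if i'.val = i.val + 1 then (1 - ε) * (1 - M * q) else 0) =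
              (1 - ε) * (1 - M * q) := by
            rw [Finset.sum_eq_single (⟨i.val + 1, hlt⟩ : Fin K)]
            · simp
            · intro b _ hb
              rw [if_neg]
              intro h
              exact hb (Fin.ext h)
            · intro h
              exact absurd (Finset.mem_univ _) h
          rw [e2]
          ring
      · simp only [hr, false_and, if_false]
        have hr1 : r.val - 1 < M := by
          have := r.2
          omega
        have e3 : ∑ i' : Fin K, ∑ r' : Fin M, (if i' = i ∧ r'.val + 1 = r.val then 1 - ε else 0) =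
            1 - ε := by
          rw [Finset.sum_eq_single i]
          · rw [Finset.sum_eq_single (⟨r.val - 1, hr1⟩ : Fin M)]
            · rw [if_pos ⟨rfl, by show r.val - 1 + 1 = r.val; omega⟩]
            · intro b _ hb
              rw [if_neg]
              rintro ⟨_, h⟩
              apply hb
              apply Fin.ext
              show b.val = r.val - 1
              omega
            · intro h
              exact absurd (Finset.mem_univ _) h
          · intro b _ hb
            refine Finset.sum_eq_zero fun r' _ => ?_
            rw [if_neg]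
            rintro ⟨h, _⟩
            exact hb h
          · intro h
            exact absurd (Finset.mem_univ _) h
        rw [e3]
        ring

end Pool.Agent.R260.AV
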