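import Pool.Agent.R260.AV.Stm

/-!
# AV-D2: the hazard of the chain with resets and echoes
-/

set_option autoImplicit false

namespace Pool.Agent.R260.AV

namespace D2

/-- one step of the chain -/
noncomputable def T (K M : ℕ) (ε q : ℝ) (v : St K M → ℝ) (s' : St K M) : ℝ :=
  ∑ s, v s * trans K M ε q s s'

/-- the truncated series -/
noncomputable def A (K M : ℕ) (ε q : ℝ) (n : ℕ) : ℝ :=
  ε * (1 - ε) / K * ∑ s ∈ Finset.range n, ((1 - ε) * (1 - M * q)) ^ s

/-- the standing hypotheses -/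
structure Hyp (K M : ℕ) (ε q : ℝ) : Prop where
  K0 : 0 < K
  M0 : 0 < M
  e0 : 0 < ε
  e1 : ε < 1
  q0 : 0 ≤ q
  Mq : M * q ≤ 1
  nn : ∀ s s' : St K M, 0 ≤ trans K M ε q s s'
  sm : ∀ s : St K M, ∑ s', trans K M ε q s s' = 1

variable {K M : ℕ} {ε q : ℝ}

theorem A_zero : A K M ε q 0 = 0 := by
  unfold A
  simp

theorem A_succ (n : ℕ) : A K M ε q (n + 1) =
    (1 - ε) * (1 - M * q) * A K M ε q n + ε * (1 - ε) / K := by
  unfold A
  rw [Finset.sum_range_succ']
  simp only [pow_succ, ← Finset.sum_mul, pow_zero]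
  ring

theorem rho_nonneg (H : Hyp K M ε q) : 0 ≤ (1 - ε) * (1 - M * q) :=
  mul_nonneg (by linarith [H.e1]) (by linarith [H.Mq])

theorem rho_le (H : Hyp K M ε q) : (1 - ε) * (1 - M * q) ≤ 1 - ε := by
  have h1 : (0 : ℝ) ≤ M * q := mul_nonneg (Nat.cast_nonneg _) H.q0
  have h2 : 0 ≤ 1 - ε := by linarith [H.e1]
  nlinarith

theorem base_nonneg (H : Hyp K M ε q) : 0 ≤ ε * (1 - ε) / K :=
  div_nonneg (mul_nonneg H.e0.le (by linarith [H.e1])) (Nat.cast_nonneg _)

theorem A_nonneg (H : Hyp K M ε q) (n : ℕ) : 0 ≤ A K M ε q n :=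
  mul_nonneg (base_nonneg H) (Finset.sum_nonneg fun i _ => pow_nonneg (rho_nonneg H) i)

theorem A_mono (H : Hyp K M ε q) {n m : ℕ} (h : n ≤ m) : A K M ε q n ≤ A K M ε q m := by
  unfold A
  refine mul_le_mul_of_nonneg_left ?_ (base_nonneg H)
  exact Finset.sum_le_sum_of_subset_of_nonneg (Finset.range_mono h)
    (fun i _ _ => pow_nonneg (rho_nonneg H) i)

theorem A_le (H : Hyp K M ε q) (n : ℕ) : A K M ε q n ≤ (1 - ε) / K := by
  have hK : (0 : ℝ) < K := by exact_mod_cast H.K0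
  have h0 : 0 ≤ (1 - ε) / K := div_nonneg (by linarith [H.e1]) hK.le
  induction n with
  | zero => rw [A_zero]; exact h0
  | succ n ih =>
    rw [A_succ]
    have h1 : (1 - ε) * (1 - M * q) * A K M ε q n ≤ (1 - ε) * ((1 - ε) / K) :=
      mul_le_mul (rho_le H) ih (A_nonneg H n) (by linarith [H.e1])
    have h2 : (1 - ε) * ((1 - ε) / K) + ε * (1 - ε) / K = (1 - ε) / K := by ring
    linarith

theorem T_nonneg (H : Hyp K M ε q) {v : St K M → ℝ} (hv : ∀ s, 0 ≤ v s) (s' : St K M) :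
    0 ≤ T K M ε q v s' :=
  Finset.sum_nonneg fun s _ => mul_nonneg (hv s) (H.nn s s')

theorem T_none (v : St K M → ℝ) : T K M ε q v none = ε * ∑ s, v s := by
  unfold T
  rw [Finset.mul_sum]
  refine Finset.sum_congr rfl fun s _ => ?_
  rcases s with _ | _ | x
  · show v none * ε = _
    ring
  · show v (some none) * ε = _
    ring
  · show v (some (some x)) * ε = _
    ring

theorem T_sum (H : Hyp K M ε q) (v : St K M → ℝ) : ∑ s', T K M ε q v s' = ∑ s, v s := by
  unfold T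
  rw [Finset.sum_comm]
  refine Finset.sum_congr rfl fun s _ => ?_
  rw [← Finset.mul_sum, H.sm, mul_one]

theorem T_single (H : Hyp K M ε q) {v : St K M → ℝ} (hv : ∀ s, 0 ≤ v s) (s s' : St K M) :
    v s * trans K M ε q s s' ≤ T K M ε q v s' :=
  Finset.single_le_sum (f := fun s => v s * trans K M ε q s s')
    (fun s _ => mul_nonneg (hv s) (H.nn s s')) (Finset.mem_univ s)

theorem T_pair (H : Hyp K M ε q) {v : St K M → ℝ} (hv : ∀ s, 0 ≤ v s) {s t : St K M}
    (hst : s ≠ t) (s' : St K M) :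
    v s * trans K M ε q s s' + v t * trans K M ε q t s' ≤ T K M ε q v s' := by
  unfold T
  rw [← Finset.sum_pair (f := fun s => v s * trans K M ε q s s') hst]
  exact Finset.sum_le_sum_of_subset_of_nonneg (Finset.subset_univ _)
    (fun s _ _ => mul_nonneg (hv s) (H.nn s s'))

theorem tr_none (hM : 0 < M) (l : Fin K) : trans K M ε q none (letter hM l) = (1 - ε) / K := by
  simp [trans, letter]

theorem tr_next (hM : 0 < M) {l l' : Fin K} (h : l.val = l'.val + 1) :
    trans K M ε q (letter hM l') (letter hM l) = (1 - ε) * (1 - M * q) := by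
  have h1 : l ≠ l' := by
    rintro rfl
    omega
  simp [trans, letter, h1, h]

theorem tr_echo0 (hM : 0 < M) (a : Fin K) (r : Fin M) :
    trans K M ε q (letter hM a) (some (some (a, r))) = (1 - ε) * q := by
  simp [trans, letter]

theorem tr_echo (a : Fin K) {r r' : Fin M} (h : r'.val + 1 = r.val) :
    trans K M ε q (some (some (a, r))) (some (some (a, r'))) = 1 - ε := by
  have h1 : r.val ≠ 0 := by omega
  simp [trans, h1, h]

/-- the good vectors -/
structure Good (K M : ℕ) (ε q : ℝ) (hM : 0 < M) (a : Fin K) (n : ℕ) (v : St K M → ℝ) : Prop where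
  res : ε * ∑ s, v s ≤ v none
  let_ : ∀ l : Fin K, l.val < a.val → A K M ε q (min n (l.val + 1)) * ∑ s, v s ≤ v (letter hM l)

/-- `v'` is obtained from `v` by one step and the observation that the state is not `a`. -/
structure Nxt (K M : ℕ) (ε q : ℝ) (hM : 0 < M) (a : Fin K) (v v' : St K M → ℝ) : Prop where
  nn : ∀ s, 0 ≤ v s
  eq : ∀ s, s ≠ letter hM a → v' s = T K M ε q v s
  nn' : ∀ s, 0 ≤ v' s
  le : ∀ s, v' s ≤ T K M ε q v s

theorem Nxt.sum_le (H : Hyp K M ε q) {hM : 0 < M} {a : Fin K} {v v' : St K M → ℝ}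
    (h : Nxt K M ε q hM a v v') : ∑ s, v' s ≤ ∑ s, v s := by
  rw [← T_sum H v]
  exact Finset.sum_le_sum fun s _ => h.le s

theorem Nxt.none_eq {hM : 0 < M} {a : Fin K} {v v' : St K M → ℝ}
    (h : Nxt K M ε q hM a v v') : v' none = ε * ∑ s, v s := by
  rw [h.eq none (by simp [letter]), T_none]

theorem Nxt.res (H : Hyp K M ε q) {hM : 0 < M} {a : Fin K} {v v' : St K M → ℝ}
    (h : Nxt K M ε q hM a v v') : ε * ∑ s, v' s ≤ v' none := by
  rw [h.none_eq]
  exact mul_le_mul_of_nonneg_left (h.sum_le H) H.e0.le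

theorem letter_ne {hM : 0 < M} {l a : Fin K} (h : l.val < a.val) :
    letter hM l ≠ letter hM a := by
  intro e
  simp only [letter, Option.some.injEq, Prod.mk.injEq, and_true] at e
  rw [e] at h
  exact lt_irrefl _ h

theorem low (H : Hyp K M ε q) {hM : 0 < M} {a : Fin K} {n : ℕ} {v : St K M → ℝ}
    (hv : ∀ s, 0 ≤ v s) (hg : Good K M ε q hM a n v) (l : Fin K) (hl : l.val ≤ a.val) :
    A K M ε q (min n l.val + 1) * ∑ s, v s ≤ T K M ε q v (letter hM l) := by
  have hK : (0 : ℝ) < K := by exact_mod_cast H.K0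
  have h0 : 0 ≤ (1 - ε) / K := div_nonneg (by linarith [H.e1]) hK.le
  rw [A_succ]
  rcases Nat.eq_zero_or_pos l.val with h | h
  · have h1 := T_single H hv none (letter hM l)
    rw [tr_none] at h1
    rw [h, Nat.min_zero, A_zero, mul_zero, zero_add]
    have h2 : ε * (∑ s, v s) * ((1 - ε) / K) ≤ v none * ((1 - ε) / K) :=
      mul_le_mul_of_nonneg_right hg.res h0
    have h3 : ε * (∑ s, v s) * ((1 - ε) / K) = ε * (1 - ε) / K * ∑ s, v s := by ring
    linarith
  · obtain ⟨l', hl'⟩ : ∃ l' : Fin K, l.val = l'.val + 1 :=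
      ⟨⟨l.val - 1, by omega⟩, by simp; omega⟩
    have hne : (none : St K M) ≠ letter hM l' := by simp [letter]
    have h1 := T_pair H hv hne (letter hM l)
    rw [tr_none, tr_next hM hl'] at h1
    have h2 : ε * (∑ s, v s) * ((1 - ε) / K) ≤ v none * ((1 - ε) / K) :=
      mul_le_mul_of_nonneg_right hg.res h0
    have h3 := hg.let_ l' (by omega)
    rw [← hl'] at h3
    have h4 : A K M ε q (min n l.val) * (∑ s, v s) * ((1 - ε) * (1 - M * q)) ≤
        v (letter hM l') * ((1 - ε) * (1 - M * q)) :=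
      mul_le_mul_of_nonneg_right h3 (rho_nonneg H)
    have h5 : ((1 - ε) * (1 - M * q) * A K M ε q (min n l.val) + ε * (1 - ε) / K) * ∑ s, v s =
        ε * (∑ s, v s) * ((1 - ε) / K) +
        A K M ε q (min n l.val) * (∑ s, v s) * ((1 - ε) * (1 - M * q)) := by ring
    rw [h5]
    linarith

theorem good_step (H : Hyp K M ε q) {hM : 0 < M} {a : Fin K} {n : ℕ} {v v' : St K M → ℝ}
    (h : Nxt K M ε q hM a v v') (hg : Good K M ε q hM a n v) :
    Good K M ε q hM a (n + 1) v' where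
  res := h.res H
  let_ := by
    intro l hl
    rw [h.eq _ (letter_ne hl), Nat.add_min_add_right]
    refine le_trans ?_ (low H h.nn hg l hl.le)
    exact mul_le_mul_of_nonneg_left (h.sum_le H) (A_nonneg H _)

theorem good_zero (H : Hyp K M ε q) {hM : 0 < M} {a : Fin K} {v v' : St K M → ℝ}
    (h : Nxt K M ε q hM a v v') : Good K M ε q hM a 0 v' where
  res := h.res H
  let_ := by
    intro l hl
    rw [Nat.zero_min, A_zero, zero_mul]
    exact h.nn' _

theorem hazard_good (H : Hyp K M ε q) {hM : 0 < M} {a : Fin K} {n : ℕ} {v : St K M → ℝ}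
    (hv : ∀ s, 0 ≤ v s) (hg : Good K M ε q hM a n v) (hn : M ≤ n + 1) (ha : M ≤ a.val) :
    A K M ε q M * ∑ s, v s ≤ T K M ε q v (letter hM a) := by
  refine le_trans ?_ (low H hv hg a le_rfl)
  refine mul_le_mul_of_nonneg_right (A_mono H ?_) (Finset.sum_nonneg fun s _ => hv s)
  omega

/-- the invariant -/
def Inv (K M : ℕ) (ε q : ℝ) (hM : 0 < M) (a : Fin K) (v : St K M → ℝ) : Prop :=
  (v none = 1 ∧ ∑ s, v s = 1) ∨ (∀ N, Good K M ε q hM a N v) ∨
  (∃ c, ∑ s, v s ≤ c ∧ c ≤ v (letter hM a)) ∨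
  (∃ (m : ℕ) (c : ℝ), ∑ s, v s ≤ c ∧ Good K M ε q hM a m v ∧
    ∀ r : Fin M, 1 ≤ r.val → r.val + (m + 1) ≤ M →
      (1 - ε) ^ (m + 1) * q * c ≤ v (some (some (a, r))))

theorem echo_ne {hM : 0 < M} {a : Fin K} {r : Fin M} (hr : 1 ≤ r.val) :
    (some (some (a, r)) : St K M) ≠ letter hM a := by
  intro e
  simp only [letter, Option.some.injEq, Prod.mk.injEq, true_and] at e
  rw [e] at hr
  simp at hr

theorem inv_step (H : Hyp K M ε q) {hM : 0 < M} {a : Fin K} {v v' : St K M → ℝ}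
    (h : Nxt K M ε q hM a v v') (hI : Inv K M ε q hM a v) : Inv K M ε q hM a v' := by
  have hK : (0 : ℝ) < K := by exact_mod_cast H.K0
  have h0 : 0 ≤ (1 - ε) / K := div_nonneg (by linarith [H.e1]) hK.le
  have hs0 : 0 ≤ ∑ s, v' s := Finset.sum_nonneg fun s _ => h.nn' s
  rcases hI with h1 | h1 | ⟨c, h1, h2⟩ | ⟨m, c, h1, h2, h3⟩
  · refine Or.inr (Or.inl fun N => ⟨h.res H, fun l hl => ?_⟩)
    rw [h.eq _ (letter_ne hl)]
    have h2 := T_single H h.nn none (letter hM l)
    rw [tr_none, h1.1, one_mul] at h2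
    refine le_trans ?_ h2
    have h3 : ∑ s, v' s ≤ 1 := by
      rw [← h1.2]
      exact h.sum_le H
    calc A K M ε q (min N (l.val + 1)) * ∑ s, v' s ≤ (1 - ε) / K * 1 :=
          mul_le_mul (A_le H _) h3 hs0 h0
      _ = (1 - ε) / K := mul_one _
  · refine Or.inr (Or.inl fun N => ?_)
    rcases N with _ | N
    · exact good_zero H h
    · exact good_step H h (h1 N)
  · refine Or.inr (Or.inr (Or.inr ⟨0, c, (h.sum_le H).trans h1, good_zero H h, ?_⟩))
    intro r hr _
    rw [h.eq _ (echo_ne hr)]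
    have h3 := T_single H h.nn (letter hM a) (some (some (a, r)))
    rw [tr_echo0] at h3
    refine le_trans ?_ h3
    have h4 : 0 ≤ (1 - ε) * q := mul_nonneg (by linarith [H.e1]) H.q0
    have h5 := mul_le_mul_of_nonneg_right h2 h4
    calc (1 - ε) ^ (0 + 1) * q * c = c * ((1 - ε) * q) := by ring
      _ ≤ _ := h5
  · refine Or.inr (Or.inr (Or.inr ⟨m + 1, c, (h.sum_le H).trans h1, good_step H h h2, ?_⟩))
    intro r hr hrm
    rw [h.eq _ (echo_ne hr)]
    have hr1 : r.val + 1 < M := by omega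
    have h4 := T_single H h.nn (some (some (a, ⟨r.val + 1, hr1⟩))) (some (some (a, r)))
    rw [tr_echo a (r := ⟨r.val + 1, hr1⟩) (r' := r) rfl] at h4
    refine le_trans ?_ h4
    have h5 := h3 ⟨r.val + 1, hr1⟩ (by simp) (by simp; omega)
    have h6 := mul_le_mul_of_nonneg_right h5 (show 0 ≤ 1 - ε by linarith [H.e1])
    calc (1 - ε) ^ (m + 1 + 1) * q * c = (1 - ε) ^ (m + 1) * q * c * (1 - ε) := by ring
      _ ≤ _ := h6

theorem hazard (H : Hyp K M ε q) {hM : 0 < M} {a : Fin K} {v : St K M → ℝ} {p : ℝ}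
    (hp1 : p ≤ (1 - ε) ^ M * q) (hp2 : p ≤ A K M ε q M) (ha : M ≤ a.val)
    (hv : ∀ s, 0 ≤ v s) (hI : Inv K M ε q hM a v) :
    p * ∑ s, v s ≤ T K M ε q v (letter hM a) := by
  have hs0 : 0 ≤ ∑ s, v s := Finset.sum_nonneg fun s _ => hv s
  have he : 0 ≤ 1 - ε := by linarith [H.e1]
  have key : ∀ (m : ℕ) (c x : ℝ), m ≤ M → ∑ s, v s ≤ c → (1 - ε) ^ m * q * c ≤ x →
      p * ∑ s, v s ≤ x := by
    intro m c x hm hc hx
    have hc0 : 0 ≤ c := hs0.trans hc
    refine le_trans ?_ hx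
    have h1 : (1 - ε) ^ M ≤ (1 - ε) ^ m := pow_le_pow_of_le_one he (by linarith [H.e0]) hm
    have h2 : (1 - ε) ^ M * q ≤ (1 - ε) ^ m * q := mul_le_mul_of_nonneg_right h1 H.q0
    exact mul_le_mul (hp1.trans h2) hc hs0 (mul_nonneg (pow_nonneg he _) H.q0)
  rcases hI with h1 | h1 | ⟨c, h1, h2⟩ | ⟨m, c, h1, h2, h3⟩
  · have h2 := T_single H hv none (letter hM a)
    rw [tr_none, h1.1, one_mul] at h2
    rw [h1.2, mul_one]
    exact hp2.trans ((A_le H M).trans h2)
  · exact (mul_le_mul_of_nonneg_right hp2 hs0).trans (hazard_good H hv (h1 M) (by omega) ha)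
  · have h3 := T_single H hv (letter hM a) (letter hM a)
    have h4 : trans K M ε q (letter hM a) (letter hM a) = (1 - ε) * q := tr_echo0 hM a ⟨0, hM⟩
    rw [h4] at h3
    refine key 1 c _ hM h1 (le_trans ?_ h3)
    have h5 : 0 ≤ (1 - ε) * q := mul_nonneg he H.q0
    have h6 := mul_le_mul_of_nonneg_right h2 h5
    calc (1 - ε) ^ 1 * q * c = c * ((1 - ε) * q) := by ring
      _ ≤ _ := h6
  · rcases Nat.lt_or_ge (m + 1) M with hm | hm
    · have hM1 : 1 < M := by omega
      have h4 := T_single H hv (some (some (a, ⟨1, hM1⟩))) (letter hM a)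
      have h5 : trans K M ε q (some (some (a, ⟨1, hM1⟩))) (letter hM a) = 1 - ε :=
        tr_echo a (r := ⟨1, hM1⟩) (r' := ⟨0, hM⟩) rfl
      rw [h5] at h4
      refine key (m + 2) c _ (by omega) h1 (le_trans ?_ h4)
      have h6 := h3 ⟨1, hM1⟩ (by simp) (by simp; omega)
      have h7 := mul_le_mul_of_nonneg_right h6 he
      calc (1 - ε) ^ (m + 2) * q * c = (1 - ε) ^ (m + 1) * q * c * (1 - ε) := by ring
        _ ≤ _ := h7
    · exact (mul_le_mul_of_nonneg_right hp2 hs0).trans (hazard_good H hv h2 hm ha)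

theorem fwd_nonneg (H : Hyp K M ε q) (a : St K M) (h : List Bool) (s : St K M) :
    0 ≤ fwd (trans K M ε q) none a h s := by
  induction h generalizing s with
  | nil =>
    unfold fwd
    split_ifs <;> norm_num
  | cons b h ih =>
    unfold fwd
    split_ifs
    · exact Finset.sum_nonneg fun s _ => mul_nonneg (ih s) (H.nn _ _)
    · exact le_rfl

theorem mass_true (a : St K M) (h : List Bool) :
    mass (trans K M ε q) none a (true :: h) =
      T K M ε q (fwd (trans K M ε q) none a h) a := by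
  unfold mass
  simp only [fwd, decide_eq_true_eq]
  rw [Finset.sum_ite_eq' Finset.univ a]
  simp [T]

theorem nxt_false (H : Hyp K M ε q) (a : Fin K) (h : List Bool) :
    Nxt K M ε q H.M0 a (fwd (trans K M ε q) none (letter H.M0 a) h)
      (fwd (trans K M ε q) none (letter H.M0 a) (false :: h)) where
  nn := fwd_nonneg H _ h
  eq := by
    intro s hs
    simp only [fwd, decide_eq_false_iff_not]
    rw [if_pos hs]
    rfl
  nn' := fwd_nonneg H _ _
  le := by
    intro s
    simp only [fwd, decide_eq_false_iff_not]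
    by_cases hs : s = letter H.M0 a
    · rw [if_neg (not_not.2 hs)]
      exact T_nonneg H (fwd_nonneg H _ h) s
    · rw [if_pos hs]
      exact le_of_eq rfl

theorem inv_all (H : Hyp K M ε q) (a : Fin K) (h : List Bool) :
    Inv K M ε q H.M0 a (fwd (trans K M ε q) none (letter H.M0 a) h) := by
  induction h with
  | nil =>
    refine Or.inl ⟨by simp [fwd], ?_⟩
    simp only [fwd]
    rw [Finset.sum_ite_eq' Finset.univ none]
    simp
  | cons b h ih =>
    rcases b with _ | _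
    · exact inv_step H (nxt_false H a h) ih
    · refine Or.inr (Or.inr (Or.inl ⟨_, le_rfl, ?_⟩))
      have h1 := mass_true (ε := ε) (q := q) (letter H.M0 a) h
      unfold mass at h1
      rw [h1]
      simp [fwd, T]

end D2

theorem d2 (hD1 : S_D1) : S_D2 := by
  intro K M ε q p hM a ha he0 he1 hq hMq hp hp1 hp2 h
  have hK : 0 < K := lt_of_le_of_lt (Nat.zero_le _) a.isLt
  obtain ⟨h1, h2⟩ := hD1 K M ε q hK hM he0.le he1.le hq hMq
  have H : D2.Hyp K M ε q := ⟨hK, hM, he0, he1, hq, hMq, h1, h2⟩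
  rw [D2.mass_true]
  exact D2.hazard H hp1 hp2 ha (D2.fwd_nonneg H _ h) (D2.inv_all H a h)

end Pool.Agent.R260.AV
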